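import Mathlib
import Pool.Agent.D0H41.SG.Stm
import Pool.Agent.D0H41.SF.Basic

set_option autoImplicit false

/-! # Module EMB of project SG: embeddings are roots -/

open Polynomial

namespace Pool.Agent.D0H12.SG

open Pool.Agent.D0H41.SF Pool.Agent.D0H41.SG

/-- **EMB.** -/
theorem t_EMB : S_EMB := by
  intro n a θ F _ _ hn hi h0
  have hint : IsIntegral ℚ θ := (integral_root n hn a θ h0).tower_top
  have e1 : (IntermediateField.adjoin ℚ {θ} →+* F) ≃ (IntermediateField.adjoin ℚ {θ} →ₐ[ℚ] F) :=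
    RingHom.equivRatAlgHom _ _
  have e2 : (IntermediateField.adjoin ℚ {θ} →ₐ[ℚ] F) ≃ {x // x ∈ (minpoly ℚ θ).aroots F} :=
    IntermediateField.algHomAdjoinIntegralEquiv ℚ hint
  rw [Nat.card_congr (e1.trans e2)]
  have hset : {x : F | aeval x (pol n a) = 0} = {x : F | x ∈ (minpoly ℚ θ).aroots F} := by
    ext x
    rw [Set.mem_ofPred_eq, Set.mem_ofPred_eq, mem_aroots, minpoly_root n hn a θ hi h0]
    have h1 : aeval x (polQ n a) = aeval x (pol n a) := by
      unfold polQ
      rw [← algebraMap_int_eq, aeval_map_algebraMap]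
    rw [h1]
    exact ⟨fun h => ⟨(polQ_monic n hn a).ne_zero, h⟩, fun h => h.2⟩
  rw [hset]
  exact Nat.card_coe_set_eq _

end Pool.Agent.D0H12.SG
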