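import Mathlib
import Pool.Agent.D0H41.SG.Stm
import Pool.Agent.D0H41.SF.Basic

set_option autoImplicit false

/-! # Module REAL of project SG: polynomials with a given number of real roots -/

open Polynomial

namespace Pool.Agent.D0H12.SG

open Pool.Agent.D0H41.SF Pool.Agent.D0H41.SG

/-- the real roots -/
noncomputable def nd (r j : ℕ) : ℝ := (j : ℝ) - ((r : ℝ) - 1) / 2

theorem nd_inj (r : ℕ) : Function.Injective (nd r) := by
  intro i j h
  unfold nd at h
  have : (i : ℝ) = j := by linarith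
  exact_mod_cast this

theorem nd_sum (r : ℕ) : ∑ j ∈ Finset.range r, nd r j = 0 := by
  unfold nd
  rw [Finset.sum_sub_distrib, Finset.sum_const, Finset.card_range, nsmul_eq_mul]
  have h : ∀ k : ℕ, ∑ j ∈ Finset.range k, (j : ℝ) = (k : ℝ) * ((k : ℝ) - 1) / 2 := by
    intro k
    induction k with
    | zero => simp
    | succ k ih => rw [Finset.sum_range_succ, ih]; push_cast; ring
  rw [h]; ring

/-- the model polynomial -/
noncomputable def modl (r m : ℕ) : ℝ[X] :=
  (∏ j ∈ Finset.range r, (X - C (nd r j))) * (X ^ 2 + C 1) ^ m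

theorem q_monic : (X ^ 2 + C 1 : ℝ[X]).Monic := monic_X_pow_add_C 1 two_ne_zero

theorem p_monic (r : ℕ) : (∏ j ∈ Finset.range r, (X - C (nd r j))).Monic :=
  monic_prod_of_monic _ _ (fun _ _ => monic_X_sub_C _)

theorem modl_monic (r m : ℕ) : (modl r m).Monic := (p_monic r).mul (q_monic.pow m)

theorem modl_natDegree (r m : ℕ) : (modl r m).natDegree = r + 2 * m := by
  unfold modl
  rw [(p_monic r).natDegree_mul (q_monic.pow m), q_monic.natDegree_pow,
    natDegree_prod_of_monic _ _ (fun _ _ => monic_X_sub_C _)]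
  have h : (X ^ 2 + C 1 : ℝ[X]).natDegree = 2 := natDegree_X_pow_add_C
  rw [h]
  simp [mul_comm]

theorem q_next : (X ^ 2 + C 1 : ℝ[X]).nextCoeff = 0 := by
  have h : (X ^ 2 + C 1 : ℝ[X]).natDegree = 2 := natDegree_X_pow_add_C
  rw [nextCoeff_of_natDegree_pos (by rw [h]; norm_num), h, coeff_add, coeff_X_pow, coeff_C]
  norm_num

theorem modl_next (r m : ℕ) : (modl r m).nextCoeff = 0 := by
  unfold modl
  rw [(p_monic r).nextCoeff_mul (q_monic.pow m), q_monic.nextCoeff_pow, q_next,
    prod_X_sub_C_nextCoeff, nd_sum]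
  simp

theorem modl_root (r m : ℕ) (x : ℝ) :
    (modl r m).IsRoot x ↔ ∃ j ∈ Finset.range r, nd r j = x := by
  unfold modl
  rw [IsRoot.def, eval_mul, eval_pow, eval_prod]
  have hq : (eval x (X ^ 2 + C 1 : ℝ[X])) ≠ 0 := by
    have : eval x (X ^ 2 + C 1 : ℝ[X]) = x ^ 2 + 1 := by simp
    rw [this]; positivity
  rw [mul_eq_zero, Finset.prod_eq_zero_iff]
  constructor
  · rintro (⟨j, hj, h⟩ | h)
    · refine ⟨j, hj, ?_⟩
      rw [eval_sub, eval_X, eval_C] at h
      linarith
    · exact absurd h (pow_ne_zero _ hq)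
  · rintro ⟨j, hj, h⟩
    left
    refine ⟨j, hj, ?_⟩
    rw [eval_sub, eval_X, eval_C, h, sub_self]

theorem modl_simple (r m : ℕ) (x : ℝ) (hx : (modl r m).IsRoot x) :
    (derivative (modl r m)).eval x ≠ 0 := by
  obtain ⟨j, hj, hjx⟩ := (modl_root r m x).1 hx
  have hP : (∏ j ∈ Finset.range r, (X - C (nd r j))).eval x = 0 := by
    rw [eval_prod]
    apply Finset.prod_eq_zero hj
    rw [eval_sub, eval_X, eval_C, hjx, sub_self]
  have hsep : (∏ j ∈ Finset.range r, (X - C (nd r j))).Separable := by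
    rw [separable_prod_X_sub_C_iff']
    intro i _ k _ h
    exact nd_inj r h
  have h1 : (derivative (∏ j ∈ Finset.range r, (X - C (nd r j)))).eval x ≠ 0 := by
    have := hsep.aeval_derivative_ne_zero (x := x) (by rw [coe_aeval_eq_eval]; exact hP)
    rwa [coe_aeval_eq_eval] at this
  have hq : (eval x (X ^ 2 + C 1 : ℝ[X])) ≠ 0 := by
    have : eval x (X ^ 2 + C 1 : ℝ[X]) = x ^ 2 + 1 := by simp
    rw [this]; positivity
  unfold modl
  rw [derivative_mul, eval_add, eval_mul, eval_mul, hP, zero_mul, add_zero, eval_pow]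
  exact mul_ne_zero h1 (pow_ne_zero _ hq)

theorem modl_ncard (r m : ℕ) : {x | (modl r m).IsRoot x}.ncard = r := by
  have h : {x | (modl r m).IsRoot x} = nd r '' (↑(Finset.range r) : Set ℕ) := by
    ext x
    rw [Set.mem_ofPred_eq, modl_root, Set.mem_image]
    simp only [Finset.mem_coe]
  rw [h, Set.ncard_image_of_injective _ (nd_inj r), Set.ncard_coe_finset, Finset.card_range]

/-- scaling does not change the number of roots -/
theorem scale_ncard (p : ℝ[X]) (s : ℝ) (hs : s ≠ 0) :
    {x | (scaleRoots p s).IsRoot x}.ncard = {x | p.IsRoot x}.ncard := by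
  have h : {x | (scaleRoots p s).IsRoot x} = (fun x => s * x) '' {x | p.IsRoot x} := by
    ext x
    rw [Set.mem_ofPred_eq, Set.mem_image]
    have key : ∀ y : ℝ, eval (s * y) (scaleRoots p s) = s ^ p.natDegree * eval y p := by
      intro y
      have := scaleRoots_eval₂_mul (p := p) (RingHom.id ℝ) y s
      rw [eval₂_id, eval₂_id] at this
      simpa using this
    constructor
    · intro hx
      refine ⟨s⁻¹ * x, ?_, ?_⟩
      · rw [Set.mem_ofPred_eq, IsRoot.def]
        have h1 := key (s⁻¹ * x)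
        rw [mul_inv_cancel_left₀ hs, hx] at h1
        rcases mul_eq_zero.1 h1.symm with h2 | h2
        · exact absurd h2 (pow_ne_zero _ hs)
        · exact h2
      · exact mul_inv_cancel_left₀ hs x
    · rintro ⟨y, hy, rfl⟩
      rw [IsRoot.def, key y]
      rw [Set.mem_ofPred_eq, IsRoot.def] at hy
      rw [hy, mul_zero]
  rw [h]
  exact Set.ncard_image_of_injective _ (mul_right_injective₀ hs)

/-- **REAL.** -/
theorem t_REAL : S_OPEN → S_REAL := by
  intro hO n r₁ hn hr he C hC
  obtain ⟨m, hm⟩ := he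
  have hnm : r₁ + 2 * m = n := by omega
  have hdeg : (modl r₁ m).natDegree = n := by rw [modl_natDegree, hnm]
  obtain ⟨ε, hε, hopen⟩ := hO (modl r₁ m) (modl_monic r₁ m) (fun x hx => modl_simple r₁ m x hx)
  obtain ⟨K0, hK0⟩ := exists_nat_gt ((C + 1) / ε)
  have hK0pos : (0 : ℝ) < K0 := lt_trans (by positivity) hK0
  have hK01 : (1 : ℝ) ≤ K0 := by
    have : 0 < K0 := by exact_mod_cast hK0pos
    exact_mod_cast this
  have hKε : (C + 1) / (K0 : ℝ) ≤ ε := by
    rw [div_le_iff₀ hK0pos]
    rw [div_lt_iff₀ hε] at hK0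
    linarith
  set F : ℝ[X] := modl r₁ m with hF
  refine ⟨∑ i : Fin (n - 1), |F.coeff i| * (K0 : ℝ) ^ (n - (i : ℕ)) + 1, by positivity, ?_⟩
  intro V hV
  have hV1 : (1 : ℝ) ≤ V := by exact_mod_cast hV
  have hVpos : (0 : ℝ) < V := by linarith
  set T : ℝ := K0 * (V : ℝ) ^ 2 with hT
  have hTpos : 0 < T := by positivity
  have hTp : ∀ k : ℕ, T ^ k = (K0 : ℝ) ^ k * (V : ℝ) ^ (2 * k) := by
    intro k
    rw [hT, mul_pow, pow_mul]
  refine ⟨fun i => ⌊F.coeff i * T ^ (n - (i : ℕ))⌋, ?_, ?_⟩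
  · intro i
    have h1 : |((⌊F.coeff i * T ^ (n - (i : ℕ))⌋ : ℤ) : ℝ)| ≤
        |F.coeff i * T ^ (n - (i : ℕ))| + 1 := by
      have h2 := Int.floor_le (F.coeff i * T ^ (n - (i : ℕ)))
      have h3 := Int.lt_floor_add_one (F.coeff i * T ^ (n - (i : ℕ)))
      have h4 := neg_abs_le (F.coeff i * T ^ (n - (i : ℕ)))
      have h5 := le_abs_self (F.coeff i * T ^ (n - (i : ℕ)))
      rw [abs_le]
      constructor <;> linarith
    have hP : (1 : ℝ) ≤ (V : ℝ) ^ (2 * (n - (i : ℕ))) := one_le_pow₀ hV1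
    have h2 : |F.coeff i * T ^ (n - (i : ℕ))| =
        |F.coeff i| * (K0 : ℝ) ^ (n - (i : ℕ)) * (V : ℝ) ^ (2 * (n - (i : ℕ))) := by
      rw [abs_mul, abs_of_pos (pow_pos hTpos _), hTp, mul_assoc]
    have h3 : |F.coeff i| * (K0 : ℝ) ^ (n - (i : ℕ)) ≤
        ∑ i : Fin (n - 1), |F.coeff i| * (K0 : ℝ) ^ (n - (i : ℕ)) :=
      Finset.single_le_sum (f := fun i : Fin (n - 1) => |F.coeff i| * (K0 : ℝ) ^ (n - (i : ℕ)))
        (fun _ _ => by positivity) (Finset.mem_univ i)
    calc |((⌊F.coeff i * T ^ (n - (i : ℕ))⌋ : ℤ) : ℝ)|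
        ≤ |F.coeff i * T ^ (n - (i : ℕ))| + 1 := h1
      _ ≤ |F.coeff i| * (K0 : ℝ) ^ (n - (i : ℕ)) * (V : ℝ) ^ (2 * (n - (i : ℕ))) +
          (V : ℝ) ^ (2 * (n - (i : ℕ))) := by rw [h2]; linarith
      _ = (|F.coeff i| * (K0 : ℝ) ^ (n - (i : ℕ)) + 1) * (V : ℝ) ^ (2 * (n - (i : ℕ))) := by ring
      _ ≤ _ := by
          apply mul_le_mul_of_nonneg_right _ (by positivity)
          linarith
  · intro a ha
    set p : ℝ[X] := (pol n a).map (Int.castRingHom ℝ) with hp
    have hpm : p.Monic := (pol_monic n (by omega) a).map _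
    have hpd : p.natDegree = n := by
      rw [hp, (pol_monic n (by omega) a).natDegree_map, pol_natDegree n (by omega)]
    have hset : {x : ℝ | aeval x (pol n a) = 0} = {x | p.IsRoot x} := by
      ext x
      rw [Set.mem_ofPred_eq, Set.mem_ofPred_eq, IsRoot.def, hp, eval_map]
      rfl
    have hs : T⁻¹ ≠ 0 := inv_ne_zero hTpos.ne'
    rw [hset, ← scale_ncard p T⁻¹ hs, ← modl_ncard r₁ m]
    apply hopen
    · rwa [monic_scaleRoots_iff]
    · rw [natDegree_scaleRoots, hpd, hdeg]
    · intro i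
      rw [coeff_scaleRoots, hpd]
      rcases lt_trichotomy i n with hi | hi | hi
      · rcases Nat.lt_or_ge i (n - 1) with hi' | hi'
        · -- the main case
          have hc : p.coeff i = ((a ⟨i, hi'⟩ : ℤ) : ℝ) := by
            rw [hp, coeff_map]
            have := pol_coeff n a ⟨i, hi'⟩
            simp only at this
            rw [this]
            simp
          have ha' := ha ⟨i, hi'⟩
          simp only at ha'
          set g : ℤ := ⌊F.coeff i * T ^ (n - i)⌋ with hg
          have h2 := Int.floor_le (F.coeff i * T ^ (n - i))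
          have h3 := Int.lt_floor_add_one (F.coeff i * T ^ (n - i))
          rw [← hg] at h2 h3
          rw [hc]
          have hTk : 0 < T ^ (n - i) := pow_pos hTpos _
          have hP : (1 : ℝ) ≤ (V : ℝ) ^ (2 * (n - i)) := one_le_pow₀ hV1
          have h4 : |((a ⟨i, hi'⟩ : ℤ) : ℝ) - F.coeff i * T ^ (n - i)| ≤
              (C + 1) * (V : ℝ) ^ (2 * (n - i)) := by
            rw [Int.cast_sub, abs_le] at ha'
            rw [abs_le]
            constructor <;> nlinarith
          have h5 : ((a ⟨i, hi'⟩ : ℤ) : ℝ) * T⁻¹ ^ (n - i) - F.coeff i =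
              (((a ⟨i, hi'⟩ : ℤ) : ℝ) - F.coeff i * T ^ (n - i)) / T ^ (n - i) := by
            rw [inv_pow]
            field_simp
          rw [h5, abs_div, abs_of_pos hTk, div_le_iff₀ hTk]
          refine h4.trans ?_
          rw [hTp]
          have h6 : C + 1 ≤ ε * (K0 : ℝ) ^ (n - i) := by
            have h7 : C + 1 ≤ ε * K0 := by
              rw [div_le_iff₀ hK0pos] at hKε
              exact hKε
            have h8 : (K0 : ℝ) ≤ (K0 : ℝ) ^ (n - i) := le_self_pow₀ hK01 (by omega)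
            have h9 : ε * (K0 : ℝ) ≤ ε * (K0 : ℝ) ^ (n - i) :=
              mul_le_mul_of_nonneg_left h8 hε.le
            linarith
          calc (C + 1) * (V : ℝ) ^ (2 * (n - i))
              ≤ (ε * (K0 : ℝ) ^ (n - i)) * (V : ℝ) ^ (2 * (n - i)) :=
                mul_le_mul_of_nonneg_right h6 (by positivity)
            _ = _ := by ring
        · have hi1 : i = n - 1 := by omega
          have h1 : p.coeff i = 0 := by
            rw [hp, coeff_map, hi1, pol_coeff_pred n (by omega), map_zero]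
          have h2 : F.coeff i = 0 := by
            have := modl_next r₁ m
            rw [nextCoeff_of_natDegree_pos (by rw [hdeg]; omega), hdeg] at this
            rw [hi1]; exact this
          rw [h1, h2]
          simp [hε.le]
      · have h1 : p.coeff i = 1 := by
          rw [hi, ← hpd]; exact hpm
        have h2 : F.coeff i = 1 := by
          rw [hi, ← hdeg]; exact modl_monic r₁ m
        rw [h1, h2, hi]
        simp [hε.le]
      · have h1 : p.coeff i = 0 := coeff_eq_zero_of_natDegree_lt (by rw [hpd]; exact hi)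
        have h2 : F.coeff i = 0 := coeff_eq_zero_of_natDegree_lt (by rw [hdeg]; exact hi)
        rw [h1, h2]
        simp [hε.le]

end Pool.Agent.D0H12.SG
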